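import Mathlib
import Pool.Agent.H895Z.DehnDefs
import Pool.Agent.H895Z.DehnMain

set_option autoImplicit false

namespace Pool.Agent.Results.MP_0fd394_lc.NoPolyTimeDehn

open Pool.Agent.H895Z.Dehn Turing

/-- No deterministic machine `M`, running in time `p (size P)`, outputs on every presentation `P`
of a word-hyperbolic group a Dehn presentation `P'` of the same group, even if `P'` may use other
generators. The input encoding `ea` is any encoding of polynomial length, the output encoding `eb`
is any encoding at least as long as the relators it lists. -/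
theorem result {Γ₀ Γ₁ : Type} (ea : Pres → List Γ₀) (eb : Pres → List Γ₁)
    (hea : ∃ q : Polynomial ℕ, ∀ P, (ea P).length ≤ q.eval P.size)
    (heb : ∀ P, P.relLength ≤ (eb P).length)
    (M : TM2ComputableAux Γ₀ Γ₁) (p : Polynomial ℕ) :
    ¬ ∀ P : Pres, P.IsHyperbolic → ∃ P' : Pres,
      Nonempty (TM2OutputsInTime M.tm ((ea P).map M.inputAlphabet.symm)
        (some ((eb P').map M.outputAlphabet.symm)) (p.eval P.size)) ∧
      P'.IsDehn ∧ Nonempty (P.group ≃* P'.group) :=
  main ea eb hea heb M p

end Pool.Agent.Results.MP_0fd394_lc.NoPolyTimeDehn
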